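import Pool.Agent.W569.UG.MainB

/-!
# Finiteness of tame representations of `G_ℚ` over arbitrary local rings

Let `p` be a regular prime, `N ∣ p - 1`, and let `S` be a finite set of primes `q ≠ p` whose order
modulo `p` is divisible by `N`.  Let `A` be any Noetherian local ring with finite residue field of
characteristic `p`, with its adic topology.  Let `ρ : G_ℚ → GL_n(A)` be a continuous representation
whose restriction to `G_{ℚ(ζ_p)}` is unramified outside `S` and has unipotent reduction.  If
`n < N`, or if for some `γ` acting on the `p`-th roots of unity by an element `c` of order `N`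
modulo `p` some power of `c` is not an eigenvalue of the reduction of `ρ γ`, then `ρ` has finite
image.
-/

set_option autoImplicit false

open NumberField IsLocalRing

namespace Pool.Agent.Results.MP_924d78_nt.CyclotomicFinite

/-- the absolute Galois group of the field `F`, with the Krull topology -/
abbrev AbsGal (F : Type) [Field F] : Type := Gal(AlgebraicClosure F/F)

/-- the field `F(ζ_p)`, generated over `F` by the `p`-th roots of unity -/
noncomputable abbrev cyclotomicField (F : Type) [Field F] (p : ℕ) :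
    IntermediateField F (AlgebraicClosure F) :=
  IntermediateField.adjoin F {z : AlgebraicClosure F | z ^ p = 1}

/-- the absolute Galois group of `ℚ(ζ_p)`: the group of all automorphisms of the algebraic
closure of `ℚ` which fix `ℚ(ζ_p)` -/
noncomputable abbrev GK (p : ℕ) : Subgroup (AbsGal ℚ) := (cyclotomicField ℚ p).fixingSubgroup

/-- `τ` lies in the inertia group at the prime ideal `P` of the ring of all algebraic integers -/
def InInertia (P : Ideal (𝓞 (AlgebraicClosure ℚ))) (τ : AbsGal ℚ) : Prop :=
  ∀ x : 𝓞 (AlgebraicClosure ℚ), τ • x - x ∈ P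

/-- `ℚ(ζ_p)` has no everywhere unramified cyclic extension of degree `p` (that is, `p` is a
regular prime): every homomorphism with open kernel from `GK p` to `ℤ/p` that is trivial on all
inertia groups is trivial. -/
def NoUnramifiedExtension (p : ℕ) : Prop :=
  ∀ f : GK p →* Multiplicative (ZMod p), IsOpen (f.ker : Set (GK p)) →
    (∀ P : Ideal (𝓞 (AlgebraicClosure ℚ)), P.IsMaximal → ∀ τ : GK p, InInertia P τ → f τ = 1) →
    ∀ g, f g = 1

/-- The restriction of `ρ` to `GK p` is unramified outside `S`: it is trivial on the inertia groups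
in `GK p` at all maximal ideals which contain no prime number in `S` (in particular at those
containing `p`, if `p ∉ S`). -/
def UnramifiedOutside (p : ℕ) {n : ℕ} {A : Type} [CommRing A] (S : Set ℕ)
    (ρ : AbsGal ℚ →* GL (Fin n) A) : Prop :=
  ∀ P : Ideal (𝓞 (AlgebraicClosure ℚ)), P.IsMaximal →
    (∀ q ∈ S, (q : 𝓞 (AlgebraicClosure ℚ)) ∉ P) → ∀ τ ∈ GK p, InInertia P τ → ρ τ = 1

/-- For `g` in `GK p` the matrix `ρ g` is unipotent modulo the maximal ideal: some power of
`ρ g - 1` has all entries in the maximal ideal. -/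
def ResiduallyUnipotent (p : ℕ) {n : ℕ} {A : Type} [CommRing A] [IsLocalRing A]
    (ρ : AbsGal ℚ →* GL (Fin n) A) : Prop :=
  ∀ g ∈ GK p, ∃ M : ℕ, ∀ i j, (((ρ g : Matrix (Fin n) (Fin n) A) - 1) ^ M) i j ∈ maximalIdeal A

theorem result (p : ℕ) [Fact p.Prime] (hreg : p ≤ 7 ∨ NoUnramifiedExtension p) (N : ℕ)
    (hN : N ∣ p - 1) (S : Set ℕ) (hSf : S.Finite)
    (hS : ∀ q ∈ S, q.Prime ∧ q ≠ p ∧ N ∣ orderOf (q : ZMod p))
    (A : Type) [CommRing A] [IsLocalRing A] [IsNoetherianRing A] [TopologicalSpace A]
    (hA : IsAdic (maximalIdeal A)) (hfin : Finite (ResidueField A))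
    (hp : (p : A) ∈ maximalIdeal A) (n : ℕ)
    (ρ : AbsGal ℚ →* GL (Fin n) A) (hρ : Continuous ρ) (hur : UnramifiedOutside p S ρ)
    (hres : ResiduallyUnipotent p ρ)
    (h : n < N ∨ ∃ (γ : AbsGal ℚ) (c i : ℕ),
      (∀ z : AlgebraicClosure ℚ, z ^ p = 1 → γ z = z ^ c) ∧ orderOf (c : ZMod p) = N ∧
      IsUnit ((ρ γ : Matrix (Fin n) (Fin n) A) -
        ((c : A) ^ i) • (1 : Matrix (Fin n) (Fin n) A)).det) :
    (Set.range ρ).Finite :=
  Pool.Agent.W569.UG.mainFin hreg hN hSf hS hA hfin hp ρ hρ
    (fun τ hτ ⟨P, hP, hPS, hτP⟩ => hur P hP hPS τ hτ hτP) hres h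

end Pool.Agent.Results.MP_924d78_nt.CyclotomicFinite
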