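import Pool.Agent.W569.FM.MainC
import Pool.Agent.W571.FM.Frob
import Pool.Agent.W327.FM.TameAbs
import Pool.Agent.W258.FM.TameFin
import Pool.Agent.W215.FM.Gen
import Pool.Agent.W605.FM.Extend
import Pool.Agent.W976.FM.Pow

/-!
# Tamely ramified representations of the absolute Galois group of a quadratic field

Let `p` be an odd prime, `K` a quadratic field and `S` a set of primes `l ≠ p` with `p ∤ l - 1`.
Let `p ^ e`, `e ≥ 1`, kill the Galois group of every finite abelian `p`-extension of `K` that is
unramified outside the primes above `S`.  Let `A` be a Noetherian local ring with finite residue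
field in which `p` has order `e0 ≥ 1` and a leading form that is a nonzerodivisor on the graded ring
(for example `ℤ_p`, the ring of integers of a finite extension of `ℚ_p`, or power series rings over
these).  Then every continuous representation of `Gal(ℚbar/K)` into `GL_n(A)` that is unramified
outside the primes above `S` and congruent to `1` modulo the `e e0`-th power of the maximal ideal is
trivial.
-/

set_option autoImplicit false

open NumberField IsLocalRing

namespace Pool.Agent.Results.MP_924d78_nt.QuadraticTame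

/-- The homomorphism `f` from the absolute Galois group of `K` to a group `E` is unramified outside
the primes of `K` above the prime numbers in `S`: for every maximal ideal `P` of the ring of all
algebraic integers which contains no `l ∈ S`, the inertia group at `P` in the absolute Galois group
of `K` is mapped to `1`. -/
def UnramifiedOutside {K : IntermediateField ℚ (AlgebraicClosure ℚ)} {E : Type} [Group E]
    (S : Set ℕ) (f : K.fixingSubgroup →* E) : Prop :=
  ∀ P : Ideal (𝓞 (AlgebraicClosure ℚ)), P.IsMaximal →
    (∀ l ∈ S, (l : 𝓞 (AlgebraicClosure ℚ)) ∉ P) → ∀ τ : K.fixingSubgroup,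
      (∀ x : 𝓞 (AlgebraicClosure ℚ), (τ : Gal(AlgebraicClosure ℚ/ℚ)) • x - x ∈ P) → f τ = 1

/-- `p ^ e` kills the Galois group of every finite abelian extension of `K` of `p`-power degree that
is unramified outside the primes above `S`. -/
def AbelianExponent (K : IntermediateField ℚ (AlgebraicClosure ℚ)) (S : Set ℕ) (p e : ℕ) : Prop :=
  ∀ (E : Type) [CommGroup E] [Finite E], IsPGroup p E → ∀ f : K.fixingSubgroup →* E,
    IsOpen (f.ker : Set K.fixingSubgroup) → UnramifiedOutside S f → ∀ g, f g ^ (p ^ e) = 1

/-- `p` has order `e0` with respect to the maximal ideal `m` of `A` and multiplication by `p` is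
injective from `m ^ k / m ^ (k + 1)` to `m ^ (k + e0) / m ^ (k + e0 + 1)` for all `k`. -/
def RegularOrder (A : Type) [CommRing A] [IsLocalRing A] (p e0 : ℕ) : Prop :=
  (p : A) ∈ maximalIdeal A ^ e0 ∧
    ∀ k : ℕ, ∀ x ∈ maximalIdeal A ^ k, (p : A) * x ∈ maximalIdeal A ^ (k + e0 + 1) →
      x ∈ maximalIdeal A ^ (k + 1)

theorem isGalois_closure (F : Type) [Field F] [CharZero F] : IsGalois F (AlgebraicClosure F) :=
  inferInstance

theorem result (p : ℕ) (hp : p.Prime) (hp2 : p ≠ 2)
    (K : IntermediateField ℚ (AlgebraicClosure ℚ)) (hK : Module.finrank ℚ K = 2)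
    (S : Set ℕ) (hS : ∀ l ∈ S, l.Prime ∧ l ≠ p ∧ ¬ p ∣ l - 1)
    (e : ℕ) (he1 : 1 ≤ e) (he : AbelianExponent K S p e)
    (A : Type) [CommRing A] [IsLocalRing A] [IsNoetherianRing A] [TopologicalSpace A]
    (hA : IsAdic (maximalIdeal A)) (hfin : Finite (ResidueField A))
    (e0 : ℕ) (he0 : 1 ≤ e0) (hreg : RegularOrder A p e0) (n : ℕ)
    (ρ : K.fixingSubgroup →* Matrix.GeneralLinearGroup (Fin n) A) (hρ : Continuous ρ)
    (hur : UnramifiedOutside S ρ)
    (hcong : ∀ g i j, ((ρ g : Matrix (Fin n) (Fin n) A) - 1) i j ∈ maximalIdeal A ^ (e * e0)) :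
    ∀ g, ρ g = 1 := by
  have hreg' : ∀ (k : ℕ) (x : A), (p : A) * x ∈ maximalIdeal A ^ (k + e0 + 1) →
      x ∈ maximalIdeal A ^ (k + 1) := by
    intro k
    induction k with
    | zero =>
      intro x hx
      exact hreg.2 0 x (by rw [pow_zero, Ideal.one_eq_top]; trivial) hx
    | succ k ih =>
      intro x hx
      exact hreg.2 (k + 1) x (ih x (Ideal.pow_le_pow_right (by omega) hx)) hx
  have : FiniteDimensional ℚ K := Module.finite_of_finrank_pos (by omega)
  have : IsGalois ℚ (AlgebraicClosure ℚ) := isGalois_closure ℚ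
  have hidx : K.fixingSubgroup.index = 2 := by
    rw [← IntermediateField.finrank_eq_fixingSubgroup_index, hK]
  exact Pool.Agent.W569.FM.mainC Pool.Agent.W215.FM.main
    (Pool.Agent.W327.FM.main Pool.Agent.W258.FM.main) Pool.Agent.W571.FM.main
    Pool.Agent.W976.FM.pow_main Pool.Agent.W976.FM.fin_main Pool.Agent.W605.FM.Extend.main hp hp2
    K.fixingSubgroup hidx (IntermediateField.fixingSubgroup_isOpen K) S hS e he1
    (fun E _ _ hE f hf hfu g => he E hE f hf hfu g) hA hfin he0 hreg.1 hreg' ρ hρ hur hcong

end Pool.Agent.Results.MP_924d78_nt.QuadraticTame
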